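import Mathlib

/-!
# Swarm NS, part S1a: abstract half (no Poisson structure)
-/

set_option autoImplicit false

namespace Pool.Agent.Helper22.NS

open Finset

variable {P : Type} [CommRing P]

lemma mul_mem_sup_pow {J 𝔪 : Ideal P} {a b : ℕ} {x z : P} (hx : x ∈ 𝔪 ^ a)
    (hz : z ∈ J ⊔ 𝔪 ^ b) : x * z ∈ J ⊔ 𝔪 ^ (a + b) := by
  obtain ⟨j, hj, y, hy, rfl⟩ := Submodule.mem_sup.1 hz
  rw [mul_add]
  refine Submodule.add_mem_sup (J.mul_mem_left _ hj) ?_
  rw [pow_add]
  exact Ideal.mul_mem_mul hx hy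

lemma cancel_sup_pow {J 𝔪 : Ideal P} [h𝔪 : 𝔪.IsMaximal] {n : ℕ} {s v : P} (hs : s ∉ 𝔪)
    (hv : s * v ∈ J ⊔ 𝔪 ^ n) : v ∈ J ⊔ 𝔪 ^ n := by
  have h1 : Ideal.span {s} ⊔ 𝔪 = ⊤ := by
    apply h𝔪.1.2
    refine lt_of_le_of_ne le_sup_right ?_
    intro h
    apply hs
    rw [h]
    exact Ideal.mem_sup_left (Ideal.mem_span_singleton_self s)
  have h2 : Ideal.span {s} ⊔ 𝔪 ^ n = ⊤ := Ideal.sup_pow_eq_top h1
  obtain ⟨a, ha, z, hz, h3⟩ := Submodule.mem_sup.1 ((Ideal.eq_top_iff_one _).1 h2)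
  obtain ⟨c, rfl⟩ := Ideal.mem_span_singleton'.1 ha
  have h4 : v = c * (s * v) + z * v := by
    calc v = (c * s + z) * v := by rw [h3, one_mul]
      _ = _ := by ring
  rw [h4]
  exact Ideal.add_mem _ (Ideal.mul_mem_left _ _ hv)
    (Ideal.mem_sup_right (Ideal.mul_mem_right _ _ hz))

variable [Algebra ℂ P]

/-- **Lemma A.** -/
theorem lemA [IsNoetherianRing P] {𝔪 I J : Ideal P} [h𝔪 : 𝔪.IsMaximal] (hJI : J ≤ I)
    (hIm : I ≤ 𝔪) {ι : Type} [Fintype ι] [DecidableEq ι] (D : ι → Derivation ℂ P P) (b : ι → P)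
    (Δ : P) (hDJ : ∀ i, ∀ x ∈ J, D i x ∈ J) (hDI : ∀ i, ∀ x ∈ I, D i x ∈ I)
    (hb : ∀ i, b i ∈ 𝔪) (hDb : ∀ i k, D i (b k) - (if i = k then Δ else 0) ∈ 𝔪)
    (hΔ : Δ ∉ 𝔪) (hgen : 𝔪 ≤ Ideal.span (Set.range b) ⊔ J ⊔ 𝔪 ^ 2) :
    ∃ u, u ∉ 𝔪 ∧ ∀ h ∈ I, u * h ∈ J := by
  classical
  set Θ : Derivation ℂ P P := ∑ i, b i • D i with hΘ
  have hΘe : ∀ x, Θ x = ∑ i, b i * D i x := by
    intro x
    have hs : ∀ s : Finset ι, (∑ i ∈ s, b i • D i) x = ∑ i ∈ s, b i * D i x := by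
      intro s
      induction s using Finset.induction_on with
      | empty => simp
      | insert a s ha ih => rw [sum_insert ha, sum_insert ha, Derivation.add_apply, ih]; rfl
    exact hs univ
  have h1 : ∀ x, Θ x ∈ 𝔪 := by
    intro x
    rw [hΘe]
    exact Ideal.sum_mem _ fun i _ => 𝔪.mul_mem_right _ (hb i)
  have hpow : ∀ r : ℕ, ∀ x ∈ 𝔪 ^ r, Θ x ∈ 𝔪 ^ r := by
    intro r
    induction r with
    | zero => intro x _; simp
    | succ r ih =>
      intro x hx
      rw [pow_succ] at hx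
      refine Submodule.mul_induction_on hx ?_ ?_
      · intro a ha y hy
        rw [Derivation.leibniz, smul_eq_mul, smul_eq_mul]
        refine Ideal.add_mem _ ?_ ?_
        · rw [pow_succ]
          exact Ideal.mul_mem_mul ha (h1 y)
        · rw [pow_succ, mul_comm y]
          exact Ideal.mul_mem_mul (ih a ha) hy
      · intro x y hx hy
        rw [map_add]
        exact Ideal.add_mem _ hx hy
  have h2 : ∀ x ∈ 𝔪, Θ x - Δ * x ∈ J ⊔ 𝔪 ^ 2 := by
    intro x hx
    obtain ⟨y, hy, z, hz, rfl⟩ := Submodule.mem_sup.1 (hgen hx)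
    obtain ⟨y1, hy1, y2, hy2, rfl⟩ := Submodule.mem_sup.1 hy
    obtain ⟨c, rfl⟩ := (Ideal.mem_span_range_iff_exists_fun).1 hy1
    have e1 : Θ (∑ i, c i * b i) - Δ * ∑ i, c i * b i ∈ 𝔪 ^ 2 := by
      rw [map_sum, mul_sum, ← sum_sub_distrib]
      refine Ideal.sum_mem _ fun k _ => ?_
      rw [Derivation.leibniz, smul_eq_mul, smul_eq_mul]
      have e2 : Θ (b k) - Δ * b k ∈ 𝔪 ^ 2 := by
        have e3 : Θ (b k) - Δ * b k = ∑ i, b i * (D i (b k) - (if i = k then Δ else 0)) := by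
          rw [hΘe]
          simp only [mul_sub, sum_sub_distrib, mul_ite, mul_zero, sum_ite_eq', mem_univ, if_true]
          ring
        rw [e3, pow_two]
        exact Ideal.sum_mem _ fun i _ => Ideal.mul_mem_mul (hb i) (hDb i k)
      have e4 : c k * Θ (b k) + b k * Θ (c k) - Δ * (c k * b k)
          = c k * (Θ (b k) - Δ * b k) + b k * Θ (c k) := by ring
      rw [e4]
      refine Ideal.add_mem _ (Ideal.mul_mem_left _ _ e2) ?_
      rw [pow_two]
      exact Ideal.mul_mem_mul (hb k) (h1 _)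
    have e5 : Θ y2 - Δ * y2 ∈ J := by
      refine J.sub_mem ?_ (J.mul_mem_left _ hy2)
      rw [hΘe]
      exact Ideal.sum_mem _ fun i _ => J.mul_mem_left _ (hDJ i _ hy2)
    have e6 : Θ z - Δ * z ∈ 𝔪 ^ 2 := Ideal.sub_mem _ (hpow 2 z hz) (Ideal.mul_mem_left _ _ hz)
    have e7 : Θ (∑ i, c i * b i + y2 + z) - Δ * (∑ i, c i * b i + y2 + z)
        = (Θ y2 - Δ * y2) + ((Θ (∑ i, c i * b i) - Δ * ∑ i, c i * b i) + (Θ z - Δ * z)) := by
      rw [map_add, map_add]; ring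
    rw [e7]
    exact Submodule.add_mem_sup e5 (Ideal.add_mem _ e1 e6)
  have h3 : ∀ r : ℕ, ∀ x ∈ 𝔪 ^ r, Θ x - (r : P) * Δ * x ∈ J ⊔ 𝔪 ^ (r + 1) := by
    intro r
    induction r with
    | zero =>
      intro x _
      simp only [Nat.cast_zero, zero_mul, sub_zero, zero_add, pow_one]
      exact Ideal.mem_sup_right (h1 x)
    | succ r ih =>
      intro x hx
      rw [pow_succ] at hx
      refine Submodule.mul_induction_on hx ?_ ?_
      · intro a ha y hy
        have e1 : Θ (a * y) - ((r + 1 : ℕ) : P) * Δ * (a * y)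
            = a * (Θ y - Δ * y) + y * (Θ a - (r : P) * Δ * a) := by
          rw [Derivation.leibniz, smul_eq_mul, smul_eq_mul, Nat.cast_add, Nat.cast_one]; ring
        rw [e1]
        refine Ideal.add_mem _ ?_ ?_
        · exact mul_mem_sup_pow (a := r) (b := 2) ha (h2 y hy)
        · have := mul_mem_sup_pow (a := 1) (by simpa using hy) (ih a ha)
          rw [show 1 + (r + 1) = r + 1 + 1 by ring] at this
          exact this
      · intro x y hx hy
        have e1 : Θ (x + y) - ((r + 1 : ℕ) : P) * Δ * (x + y)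
            = (Θ x - ((r + 1 : ℕ) : P) * Δ * x) + (Θ y - ((r + 1 : ℕ) : P) * Δ * y) := by
          rw [map_add]; ring
        rw [e1]
        exact Ideal.add_mem _ hx hy
  have hunit : ∀ r : ℕ, 1 ≤ r → (r : P) * Δ ∉ 𝔪 := by
    intro r hr h
    rcases h𝔪.isPrime.mem_or_mem h with h | h
    · have hu : IsUnit ((r : P)) := by
        have : (r : P) = algebraMap ℂ P (r : ℂ) := by simp
        rw [this]
        apply IsUnit.map
        exact IsUnit.mk0 _ (by exact_mod_cast (by omega : r ≠ 0))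
      exact h𝔪.ne_top (Ideal.eq_top_of_isUnit_mem _ h hu)
    · exact hΔ h
  have h4 : ∀ r : ℕ, I ≤ J ⊔ 𝔪 ^ (r + 1) := by
    intro r
    induction r with
    | zero => simpa using hIm.trans le_sup_right
    | succ r ih =>
      intro h hh
      obtain ⟨j, hj, v, hv, rfl⟩ := Submodule.mem_sup.1 (ih hh)
      have hvI : v ∈ I := by
        have := I.sub_mem hh (hJI hj)
        simpa using this
      refine Ideal.add_mem _ (Ideal.mem_sup_left hj) ?_
      apply cancel_sup_pow (hunit (r + 1) (by omega))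
      have e1 : Θ v ∈ J ⊔ 𝔪 ^ (r + 1 + 1) := by
        rw [hΘe]
        refine Ideal.sum_mem _ fun i _ => ?_
        have := mul_mem_sup_pow (a := 1) (by simpa using hb i) (ih (hDI i v hvI))
        rw [show 1 + (r + 1) = r + 1 + 1 by ring] at this
        exact this
      have e2 := Ideal.sub_mem _ e1 (h3 (r + 1) v hv)
      simpa using e2
  have h5 : ∀ h ∈ I, ∃ u, u ∉ 𝔪 ∧ u * h ∈ J := by
    intro h hh
    have hk : (Submodule.Quotient.mk h : P ⧸ J) ∈ (⨅ i : ℕ, 𝔪 ^ i • ⊤ : Submodule P (P ⧸ J)) := by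
      rw [Submodule.mem_iInf]
      intro i
      have hi : h ∈ J ⊔ 𝔪 ^ i := by
        have := h4 i hh
        exact (sup_le_sup_left (Ideal.pow_le_pow_right (by omega)) J) this
      obtain ⟨j, hj, v, hv, rfl⟩ := Submodule.mem_sup.1 hi
      have e1 : (Submodule.Quotient.mk (j + v) : P ⧸ J) = v • (Submodule.Quotient.mk 1 : P ⧸ J) := by
        rw [← Submodule.Quotient.mk_smul, smul_eq_mul, mul_one, Submodule.Quotient.eq]
        simpa using hj
      rw [e1]
      exact Submodule.smul_mem_smul hv trivial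
    obtain ⟨⟨r, hr⟩, hr2⟩ := (Ideal.mem_iInf_smul_pow_eq_bot_iff (I := 𝔪) _).1 hk
    refine ⟨1 - r, ?_, ?_⟩
    · intro h
      apply h𝔪.ne_top
      rw [Ideal.eq_top_iff_one]
      simpa using 𝔪.add_mem h hr
    · have e2 : (Submodule.Quotient.mk (r * h) : P ⧸ J) = Submodule.Quotient.mk h := hr2
      have e3 := (Submodule.Quotient.eq J).1 e2.symm
      rwa [show (1 - r) * h = h - r * h by ring]
  choose! u hu1 hu2 using h5
  obtain ⟨s, hs⟩ := (isNoetherianRing_iff_ideal_fg P).1 inferInstance I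
  refine ⟨∏ x ∈ s, u x, ?_, ?_⟩
  · intro h
    obtain ⟨x, hx, hxm⟩ := (h𝔪.isPrime.prod_mem_iff).1 h
    exact hu1 x (hs ▸ Ideal.subset_span hx) hxm
  · intro h hh
    rw [← hs] at hh
    refine Submodule.span_induction ?_ ?_ ?_ ?_ hh
    · intro x hx
      rw [← Finset.prod_erase_mul s u hx, mul_assoc]
      exact J.mul_mem_left _ (hu2 x (hs ▸ Ideal.subset_span hx))
    · simp
    · intro x y _ _ hx hy
      rw [mul_add]
      exact J.add_mem hx hy
    · intro a x _ hx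
      rw [smul_eq_mul, show (∏ x ∈ s, u x) * (a * x) = a * ((∏ x ∈ s, u x) * x) by ring]
      exact J.mul_mem_left _ hx

end Pool.Agent.Helper22.NS
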